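import Mathlib
import Pool.Agent.Lib.MP_b50c09_co.Copies

set_option autoImplicit false

namespace Pool.Agent.Results.MP_b50c09_co.AlmostRegularPacking

open Pool.Agent.Lib.MP_b50c09_co

/-- For every tripartite 3-graph `H` (on a nonempty vertex set) and every `c > 0` there are
`ε > 0` and `C > 0` such that every 3-graph `G` on `n` vertices whose vertex degrees differ by at
most `ε n ^ 2` and whose pair degrees are all at least `c n` has an `H`-packing covering all but
at most `C` vertices. -/
theorem result :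
    ∀ (U : Type) [Fintype U] [DecidableEq U] [Nonempty U] (H : Finset (Finset U)),
      (∀ e ∈ H, e.card = 3) →
      (∃ part : U → Fin 3, ∀ e ∈ H, ∀ i : Fin 3, (e.filter (fun u => part u = i)).card = 1) →
      ∀ c : ℝ, 0 < c →
      ∃ ε : ℝ, 0 < ε ∧ ∃ C : ℝ, 0 < C ∧
        ∀ (V : Type) [Fintype V] [DecidableEq V] (G : Finset (Finset V)),
          (∀ e ∈ G, e.card = 3) →
          (∀ u v : V, ((G.filter (fun e => u ∈ e)).card : ℝ)
            ≤ ((G.filter (fun e => v ∈ e)).card : ℝ) + ε * (Fintype.card V : ℝ) ^ 2) →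
          (∀ u v : V, u ≠ v → c * (Fintype.card V : ℝ)
            ≤ ((Finset.univ.filter
                (fun w : V => w ≠ u ∧ w ≠ v ∧ ({u, v, w} : Finset V) ∈ G)).card : ℝ)) →
          ∃ P : Finset (U ↪ V),
            (∀ f ∈ P, ∀ e ∈ H, e.map f ∈ G) ∧
            (∀ f ∈ P, ∀ g ∈ P, f ≠ g → Disjoint (Finset.univ.map f) (Finset.univ.map g)) ∧
            ((Finset.univ.filter (fun v : V => ∀ f ∈ P, v ∉ Finset.univ.map f)).card : ℝ)
              ≤ C := by
  intro U _ _ _ H hH hpart c hc
  obtain ⟨part, hpart⟩ := hpart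
  obtain ⟨d, hd, C, hC⟩ := reach_small (Fintype.card U) Fintype.card_pos (min c 1)
    (lt_min hc one_pos) (min_le_right _ _)
  refine ⟨d / 2, by positivity, C + 1, by positivity, ?_⟩
  intro V _ _ G hG hdeg hcod
  obtain ⟨W, hW, hWc⟩ := hC V (fun x y z : V => ({x, y, z} : Finset V) ∈ G) Finset.univ
    (sym3_of G hG)
    (by
      intro u _ v _ huv
      have h1 := hcod u v huv
      have h2 : min c 1 * (Fintype.card V : ℝ) ≤ c * (Fintype.card V : ℝ) :=
        mul_le_mul_of_nonneg_right (min_le_left _ _) (by positivity)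
      rw [Finset.card_univ]
      refine le_trans h2 (le_trans h1 ?_)
      unfold cod
      rw [Finset.card_filter]
      push_cast
      apply Finset.sum_le_sum
      intro z _
      by_cases h : ({u, v, z} : Finset V) ∈ G
      · rw [if_pos h]
        split_ifs <;> norm_num
      · simp [h])
    (by
      intro u _ v _
      rw [dg_eq G hG, dg_eq G hG, Finset.card_univ]
      have := hdeg u v
      linarith)
  obtain ⟨P, p1, p2, _, p4⟩ := packing_of_reach G H hG hH part hpart _ _ hW
  refine ⟨P, p1, p2, ?_⟩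
  have hsub : Finset.univ.filter (fun v : V => ∀ f ∈ P, v ∉ Finset.univ.map f) ⊆ W := by
    intro v hv
    rw [Finset.mem_filter] at hv
    by_contra hvW
    obtain ⟨f, hf, hvf⟩ := p4 v hv.1 hvW
    exact hv.2 f hf hvf
  have h1 := le_trans (Finset.card_le_card hsub) hWc
  have h2 : ((Finset.univ.filter (fun v : V => ∀ f ∈ P, v ∉ Finset.univ.map f)).card : ℝ)
      ≤ C := by exact_mod_cast h1
  linarith

end Pool.Agent.Results.MP_b50c09_co.AlmostRegularPacking
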